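import Pool.Agent.H96.JCT.Stmts

/-!
# Board `jct`, row PAR (helper52): two closed walks cross evenly
-/

set_option autoImplicit false

namespace Pool.JCT

open Complex Set

private theorem par_shift {M : Type} [AddCommMonoid M] (g : ℕ → M) (l : ℕ) (hl : 0 < l) :
    ∑ j ∈ Finset.range l, g ((j + 1) % l) = ∑ j ∈ Finset.range l, g j := by
  obtain ⟨m, rfl⟩ : ∃ m, l = m + 1 := ⟨l - 1, by omega⟩
  rw [Finset.sum_range_succ, Finset.sum_range_succ', Nat.mod_self]
  congr 1
  refine Finset.sum_congr rfl fun j hj => ?_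
  rw [Nat.mod_eq_of_lt (by have := Finset.mem_range.mp hj; omega)]

theorem par_thm (h1 : ARC_S) : PAR_S := by
  intro k f a b l h c d C hf hh hC
  have key : ∀ j, ∃ n : ℤ, j < l → (W k f a b (h j (d j)) - W k f a b (h j (c j)) = n * tpi ∧
      Even (n - ((∑ i ∈ Finset.range k, C i j : ℕ) : ℤ))) := by
    intro j
    by_cases hj : j < l
    · obtain ⟨n, hn⟩ := h1 k f a b (h j) (c j) (d j) (fun i => C i j) hf (hh.cont j hj)
        (hh.inj j hj) (hh.sub j hj) (fun i hi => hC i hi j hj)
      exact ⟨n, fun _ => hn⟩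
    · exact ⟨0, fun h => absurd h hj⟩
  choose n hn using key
  have htpi : tpi ≠ 0 := by
    unfold tpi
    simp [Real.pi_ne_zero]
  have hsum : ∑ j ∈ Finset.range l, (W k f a b (h j (d j)) - W k f a b (h j (c j))) = 0 := by
    rw [Finset.sum_sub_distrib, sub_eq_zero]
    rw [← par_shift (fun j => W k f a b (h j (c j))) l hh.pos]
    refine Finset.sum_congr rfl fun j hj => ?_
    rw [hh.join j (Finset.mem_range.mp hj)]
  have hsum2 : ((∑ j ∈ Finset.range l, n j : ℤ) : ℂ) * tpi = 0 := by
    rw [← hsum]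
    push_cast
    rw [Finset.sum_mul]
    refine Finset.sum_congr rfl fun j hj => ?_
    rw [(hn j (Finset.mem_range.mp hj)).1]
  have hn0 : ∑ j ∈ Finset.range l, n j = 0 := by
    have := (mul_eq_zero.mp hsum2).resolve_right htpi
    exact_mod_cast this
  have hev : Even (∑ j ∈ Finset.range l, (n j - ((∑ i ∈ Finset.range k, C i j : ℕ) : ℤ))) := by
    refine Finset.sum_induction _ (fun x : ℤ => Even x) (fun _ _ => Even.add) ⟨0, rfl⟩ ?_
    intro j hj
    exact (hn j (Finset.mem_range.mp hj)).2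
  rw [Finset.sum_sub_distrib, hn0, zero_sub, even_neg, ← Nat.cast_sum, Int.even_coe_nat] at hev
  rw [Finset.sum_comm]
  exact hev

end Pool.JCT
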